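import Mathlib

/-!
# Tiling benzels by left stones and bones (MP_cb668b_co)

Cells are the points of `ℤ × ℤ × ℤ` with coordinate sum `1`.
-/

namespace Pool.Agent.E8helper34.Bz

/-- Points of `ℤ³`, written `(i, j, k)`. -/
abbrev Pt := ℤ × ℤ × ℤ

/-- The `(a,b)`-benzel: the cells `(i,j,k)`, `i+j+k=1`, with
`-(a-1) ≤ j-i, k-j, i-k ≤ b-1`. -/
def benzel (a b : ℤ) : Set Pt :=
  {c | c.1 + c.2.1 + c.2.2 = 1 ∧
    (-(a - 1) ≤ c.2.1 - c.1 ∧ c.2.1 - c.1 ≤ b - 1) ∧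
    (-(a - 1) ≤ c.2.2 - c.2.1 ∧ c.2.2 - c.2.1 ≤ b - 1) ∧
    (-(a - 1) ≤ c.1 - c.2.2 ∧ c.1 - c.2.2 ≤ b - 1)}

/-- Standard basis of `ℤ³`. -/
def e1 : Pt := (1, 0, 0)
/-- Standard basis of `ℤ³`. -/
def e2 : Pt := (0, 1, 0)
/-- Standard basis of `ℤ³`. -/
def e3 : Pt := (0, 0, 1)

/-- Left stones: `{q-e₁, q-e₂, q-e₃}` with `q₁+q₂+q₃=2`. -/
def IsLeftStone (t : Set Pt) : Prop :=
  ∃ q : Pt, q.1 + q.2.1 + q.2.2 = 2 ∧ t = {q - e1, q - e2, q - e3}

/-- Bones: `{c, c+d, c+2d}` with `c` a cell and `d = e₁-e₂`, `e₂-e₃` or `e₃-e₁`. -/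
def IsBone (t : Set Pt) : Prop :=
  ∃ c : Pt, c.1 + c.2.1 + c.2.2 = 1 ∧
    ∃ d : Pt, (d = e1 - e2 ∨ d = e2 - e3 ∨ d = e3 - e1) ∧ t = {c, c + d, c + (2 : ℤ) • d}

/-- `T` is a partition of the region `S` into left stones and bones. -/
def IsTiling (T : Set (Set Pt)) (S : Set Pt) : Prop :=
  (∀ t ∈ T, IsLeftStone t ∨ IsBone t) ∧ (∀ t ∈ T, ∀ t' ∈ T, t ≠ t' → Disjoint t t') ∧ ⋃₀ T = S

/-- The expression `I(a,b)` of the problem file. -/
def I (a b : ℤ) : ℚ :=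
  if (a + b) % 3 = 0 then (3 * (a : ℚ) ^ 2 - 6 * a * b + 3 * b ^ 2 - a - b) / 2
  else if (a + b) % 3 = 1 then (-(a : ℚ) ^ 2 + 4 * a * b - b ^ 2 - a - b + 2) / 2
  else (3 * (a : ℚ) ^ 2 - 6 * a * b + 3 * b ^ 2 + a + b - 2) / 2

/-- The region has a tiling by left stones and bones. -/
def Tileable (S : Set Pt) : Prop := ∃ T, IsTiling T S

theorem Tileable.of_fibers {ι : Type*} {S : Set Pt} (f : Pt → ι)
    (h : ∀ l, Tileable {c | c ∈ S ∧ f c = l}) : Tileable S := by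
  choose T hT using h
  refine ⟨⋃ l, T l, ?_, ?_, ?_⟩
  · intro t ht
    obtain ⟨l, hl⟩ := Set.mem_iUnion.1 ht
    exact (hT l).1 t hl
  · intro t ht t' ht' hne
    obtain ⟨l, hl⟩ := Set.mem_iUnion.1 ht
    obtain ⟨l', hl'⟩ := Set.mem_iUnion.1 ht'
    by_cases hll : l = l'
    · subst hll
      exact (hT l).2.1 t hl t' hl' hne
    · rw [Set.disjoint_left]
      intro c hc hc'
      have h1 : c ∈ ⋃₀ T l := ⟨t, hl, hc⟩
      have h2 : c ∈ ⋃₀ T l' := ⟨t', hl', hc'⟩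
      rw [(hT l).2.2] at h1
      rw [(hT l').2.2] at h2
      exact hll (h1.2.symm.trans h2.2)
  · ext c
    constructor
    · rintro ⟨t, ht, hc⟩
      obtain ⟨l, hl⟩ := Set.mem_iUnion.1 ht
      have h1 : c ∈ ⋃₀ T l := ⟨t, hl, hc⟩
      rw [(hT l).2.2] at h1
      exact h1.1
    · intro hc
      have h1 : c ∈ ⋃₀ T (f c) := by
        rw [(hT (f c)).2.2]
        exact ⟨hc, rfl⟩
      obtain ⟨t, ht, hct⟩ := h1
      exact ⟨t, Set.mem_iUnion.2 ⟨_, ht⟩, hct⟩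

theorem Tileable.empty : Tileable ∅ :=
  ⟨∅, by simp, by simp, by simp⟩

theorem Tileable.of_tile {t : Set Pt} (h : IsLeftStone t ∨ IsBone t) : Tileable t := by
  refine ⟨{t}, ?_, ?_, ?_⟩
  · intro t' ht'
    rw [Set.mem_singleton_iff] at ht'
    subst ht'
    exact h
  · intro t1 h1 t2 h2 hne
    rw [Set.mem_singleton_iff] at h1 h2
    exact absurd (h1.trans h2.symm) hne
  · simp

theorem Tileable.image {S : Set Pt} (φ : Pt → Pt) (hφ : Function.Injective φ)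
    (ht : ∀ t, IsLeftStone t ∨ IsBone t → IsLeftStone (φ '' t) ∨ IsBone (φ '' t))
    (h : Tileable S) : Tileable (φ '' S) := by
  obtain ⟨T, h1, h2, h3⟩ := h
  refine ⟨(fun t => φ '' t) '' T, ?_, ?_, ?_⟩
  · rintro _ ⟨t, htT, rfl⟩
    exact ht t (h1 t htT)
  · rintro _ ⟨t, htT, rfl⟩ _ ⟨t', htT', rfl⟩ hne
    have : t ≠ t' := by
      rintro rfl
      exact hne rfl
    exact (Set.disjoint_image_iff hφ).2 (h2 t htT t' htT' this)
  · rw [← h3, Set.image_sUnion]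

/-- Rotation of the plane. -/
def rot (c : Pt) : Pt := (c.2.1, c.2.2, c.1)

/-- Reflection of the plane. -/
def refl (c : Pt) : Pt := (c.2.1, c.1, c.2.2)

theorem rot_inj : Function.Injective rot := by
  rintro ⟨a, b, c⟩ ⟨a', b', c'⟩ h
  simp only [rot, Prod.mk.injEq] at h
  obtain ⟨h1, h2, h3⟩ := h
  subst h1 h2 h3
  rfl

theorem refl_inj : Function.Injective refl := by
  rintro ⟨a, b, c⟩ ⟨a', b', c'⟩ h
  simp only [refl, Prod.mk.injEq] at h
  obtain ⟨h1, h2, h3⟩ := h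
  subst h1 h2 h3
  rfl

theorem rot_tile (t : Set Pt) (h : IsLeftStone t ∨ IsBone t) :
    IsLeftStone (rot '' t) ∨ IsBone (rot '' t) := by
  rcases h with ⟨q, hq, rfl⟩ | ⟨c, hc, d, hd, rfl⟩
  · left
    refine ⟨rot q, ?_, ?_⟩
    · simp only [rot]; omega
    · obtain ⟨x, y, z⟩ := q
      ext ⟨i, j, k⟩
      simp only [rot, e1, e2, e3, Set.mem_image, Set.mem_insert_iff, Set.mem_singleton_iff,
        Prod.mk_sub_mk, Prod.mk.injEq, Prod.exists]
      constructor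
      · rintro ⟨a, b, c, h, rfl, rfl, rfl⟩
        omega
      · intro h
        exact ⟨k, i, j, by omega, rfl, rfl, rfl⟩
  · right
    refine ⟨rot c, ?_, rot d, ?_, ?_⟩
    · simp only [rot]; omega
    · rcases hd with rfl | rfl | rfl
      · right; right; simp [rot, e1, e2, e3]
      · left; simp [rot, e1, e2, e3]
      · right; left; simp [rot, e1, e2, e3]
    · obtain ⟨x, y, z⟩ := c
      obtain ⟨u, v, w⟩ := d
      ext ⟨i, j, k⟩
      simp only [rot, Set.mem_image, Set.mem_insert_iff, Set.mem_singleton_iff,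
        Prod.mk_add_mk, Prod.smul_mk, smul_eq_mul, Prod.mk.injEq, Prod.exists]
      constructor
      · rintro ⟨a, b, c, h, rfl, rfl, rfl⟩
        omega
      · intro h
        exact ⟨k, i, j, by omega, rfl, rfl, rfl⟩

theorem refl_tile (t : Set Pt) (h : IsLeftStone t ∨ IsBone t) :
    IsLeftStone (refl '' t) ∨ IsBone (refl '' t) := by
  rcases h with ⟨q, hq, rfl⟩ | ⟨c, hc, d, hd, rfl⟩
  · left
    refine ⟨refl q, ?_, ?_⟩
    · simp only [refl]; omega
    · obtain ⟨x, y, z⟩ := q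
      ext ⟨i, j, k⟩
      simp only [refl, e1, e2, e3, Set.mem_image, Set.mem_insert_iff, Set.mem_singleton_iff,
        Prod.mk_sub_mk, Prod.mk.injEq, Prod.exists]
      constructor
      · rintro ⟨a, b, c, h, rfl, rfl, rfl⟩
        omega
      · intro h
        exact ⟨j, i, k, by omega, rfl, rfl, rfl⟩
  · right
    refine ⟨refl (c + (2 : ℤ) • d), ?_, -refl d, ?_, ?_⟩
    · rcases hd with rfl | rfl | rfl <;> simp [refl, e1, e2, e3] <;> omega
    · rcases hd with rfl | rfl | rfl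
      · left; simp [refl, e1, e2, e3]
      · right; right; simp [refl, e1, e2, e3]
      · right; left; simp [refl, e1, e2, e3]
    · obtain ⟨x, y, z⟩ := c
      obtain ⟨u, v, w⟩ := d
      ext ⟨i, j, k⟩
      simp only [refl, Set.mem_image, Set.mem_insert_iff, Set.mem_singleton_iff,
        Prod.mk_add_mk, Prod.smul_mk, smul_eq_mul, Prod.mk.injEq, Prod.exists, Prod.neg_mk]
      constructor
      · rintro ⟨a, b, c, h, rfl, rfl, rfl⟩
        omega
      · intro h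
        exact ⟨j, i, k, by omega, rfl, rfl, rfl⟩

theorem benzel_refl (a b : ℤ) : benzel b a = refl '' benzel a b := by
  ext ⟨i, j, k⟩
  simp only [benzel, refl, Set.mem_ofPred_eq, Set.mem_image, Prod.exists, Prod.mk.injEq]
  constructor
  · intro h
    exact ⟨j, i, k, by omega, rfl, rfl, rfl⟩
  · rintro ⟨x, y, z, h, rfl, rfl, rfl⟩
    omega

/-- Horizontal rows whose length is a multiple of `3` are tileable. -/
theorem row_tileable (k lo hi : ℤ) (h3 : (hi + 1 - lo) % 3 = 0) :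
    Tileable {c : Pt | c.1 + c.2.1 + c.2.2 = 1 ∧ c.2.2 = k ∧ lo ≤ c.1 ∧ c.1 ≤ hi} := by
  apply Tileable.of_fibers (fun c => (c.1 - lo) / 3)
  intro l
  by_cases hl : 0 ≤ l ∧ lo + 3 * l + 2 ≤ hi
  · apply Tileable.of_tile
    right
    refine ⟨(lo + 3 * l, 1 - k - (lo + 3 * l), k), by ring, e1 - e2, Or.inl rfl, ?_⟩
    ext ⟨x, y, z⟩
    simp only [e1, e2, Set.mem_ofPred_eq, Set.mem_insert_iff, Set.mem_singleton_iff,
      Prod.mk_add_mk, Prod.mk_sub_mk, Prod.smul_mk, smul_eq_mul, Prod.mk.injEq]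
    omega
  · convert Tileable.empty
    ext ⟨x, y, z⟩
    simp only [Set.mem_ofPred_eq, Set.mem_empty_iff_false, iff_false]
    omega

end Pool.Agent.E8helper34.Bz
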