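import Pool.Agent.E8helper34.Bz.Basic

namespace Pool.Agent.E8helper34.Bz

/-- The core triangle `{i,j,k ≤ m}` is tileable. -/
theorem core_tileable (m : ℤ) :
    Tileable {c : Pt | c.1 + c.2.1 + c.2.2 = 1 ∧ c.1 ≤ m ∧ c.2.1 ≤ m ∧ c.2.2 ≤ m} := by
  -- row `k` has length `L = 2m + k`, i from `1 - k - m` to `m`
  apply Tileable.of_fibers (fun c : Pt =>
    if (2 * m + c.2.2) % 3 = 0 ∨ ((2 * m + c.2.2) % 3 = 1 ∧ 2 - c.2.2 - m ≤ c.1) ∨
        ((2 * m + c.2.2) % 3 = 2 ∧ 3 - c.2.2 - m ≤ c.1) then ((0 : ℤ), c.2.2)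
    else ((1 : ℤ), (2 * m + c.2.2) / 3))
  rintro ⟨u, l⟩
  by_cases hu0 : u = 0
  · subst hu0
    have hr := row_tileable l (1 - l - m + (2 * m + l) % 3) m (by omega)
    by_cases hl : l ≤ m
    · convert hr using 1
      ext ⟨x, y, z⟩
      simp only [Set.mem_ofPred_eq]
      split_ifs with h
      · simp only [Prod.mk.injEq, true_and]
        omega
      · simp only [Prod.mk.injEq]
        omega
    · convert Tileable.empty
      ext ⟨x, y, z⟩
      simp only [Set.mem_ofPred_eq, Set.mem_empty_iff_false, iff_false]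
      split_ifs with h
      · simp only [Prod.mk.injEq, true_and]
        omega
      · simp only [Prod.mk.injEq]
        omega
  · by_cases hu1 : u = 1 ∧ 0 ≤ l ∧ 3 * l + 2 - 2 * m ≤ m
    · obtain ⟨rfl, hl0, hlm⟩ := hu1
      apply Tileable.of_tile
      left
      -- row z1 : 2m+z = 3l+1, z1 = 3l+1-2m ; row z2 : z2 = 3l+2-2m
      refine ⟨(m - 3 * l, m, 3 * l + 2 - 2 * m), by ring, ?_⟩
      ext ⟨x, y, z⟩
      simp only [e1, e2, e3, Set.mem_ofPred_eq, Set.mem_insert_iff, Set.mem_singleton_iff,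
        Prod.mk_sub_mk, Prod.mk.injEq]
      split_ifs with h
      · simp only [Prod.mk.injEq]
        omega
      · simp only [Prod.mk.injEq, true_and]
        omega
    · convert Tileable.empty
      ext ⟨x, y, z⟩
      simp only [Set.mem_ofPred_eq, Set.mem_empty_iff_false, iff_false]
      split_ifs with h
      · simp only [Prod.mk.injEq]
        omega
      · simp only [Prod.mk.injEq]
        omega

end Pool.Agent.E8helper34.Bz
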