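import Pool.Agent.E8helper34.Bz.Core

namespace Pool.Agent.E8helper34.Bz

/-- Triangular roots. -/
theorem exists_root (n : ℕ) : ∃ w : ℤ, 0 ≤ w ∧ w * (w + 1) ≤ 2 * n ∧ 2 * (n : ℤ) < (w + 1) * (w + 2) := by
  induction n with
  | zero => exact ⟨0, by norm_num⟩
  | succ n ih =>
    obtain ⟨w, h0, h1, h2⟩ := ih
    by_cases h : 2 * ((n : ℤ) + 1) < (w + 1) * (w + 2)
    · refine ⟨w, h0, ?_, ?_⟩ <;> push_cast <;> nlinarith
    · refine ⟨w + 1, by omega, ?_, ?_⟩
      · push_cast; nlinarith
      · push_cast; nlinarith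

/-- The triangular root of `n` (for `n ≥ 0`). -/
noncomputable def tr (n : ℤ) : ℤ := (exists_root n.toNat).choose

theorem tr_nonneg (n : ℤ) : 0 ≤ tr n := (exists_root n.toNat).choose_spec.1

theorem tr_le {n : ℤ} (hn : 0 ≤ n) : tr n * (tr n + 1) ≤ 2 * n := by
  have := (exists_root n.toNat).choose_spec.2.1
  have h2 : ((n.toNat : ℕ) : ℤ) = n := Int.toNat_of_nonneg hn
  unfold tr
  linarith

theorem lt_tr {n : ℤ} (hn : 0 ≤ n) : 2 * n < (tr n + 1) * (tr n + 2) := by
  have := (exists_root n.toNat).choose_spec.2.2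
  have h2 : ((n.toNat : ℕ) : ℤ) = n := Int.toNat_of_nonneg hn
  unfold tr
  linarith

/-- Key identity. -/
theorem key {x y : ℤ} (hx : 0 ≤ x) (hy : 0 ≤ y) : y + 1 ≤ x - tr x ↔ y + 2 + tr y ≤ x := by
  have hx0 := tr_nonneg x
  have hx1 := tr_le hx
  have hx2 := lt_tr hx
  have hy0 := tr_nonneg y
  have hy1 := tr_le hy
  have hy2 := lt_tr hy
  generalize tr x = u at *
  generalize tr y = v at *
  constructor
  · intro h
    by_contra hc
    push Not at hc
    -- x ≤ y + 1 + v
    have h1 : u ≤ v + 1 := by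
      by_contra h2
      push Not at h2
      nlinarith
    rcases eq_or_lt_of_le h1 with h3 | h3
    · omega
    · have h4 : u ≤ v := by omega
      nlinarith
  · intro h
    have h1 : v + 1 ≤ u := by
      by_contra h2
      push Not at h2
      nlinarith
    rcases eq_or_lt_of_le h1 with h3 | h3
    · omega
    · have h4 : v + 2 ≤ u := by omega
      nlinarith

/-- `x` weakly beats `y`. -/
def R (m x y : ℤ) : Prop := m < x ∧ y ≤ x + 1 + tr (x - 1 - m)

theorem not_R_iff {m x y : ℤ} (hx : m < x) : ¬ R m y x ↔ y ≤ x - 1 - tr (x - 1 - m) := by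
  unfold R
  by_cases hy : m < y
  · have hk := key (x := x - 1 - m) (y := y - 1 - m) (by omega) (by omega)
    simp only [hy, true_and, not_le]
    omega
  · simp only [hy, false_and, not_false_eq_true, true_iff]
    -- need x - 1 - tr ≥ m
    have h0 := tr_nonneg (x - 1 - m)
    have h1 := tr_le (n := x - 1 - m) (by omega)
    have : tr (x - 1 - m) ≤ x - 1 - m := by nlinarith
    omega

/-- The row sets of sector 0, intersected with the benzel. -/
def A (m a b k : ℤ) : Set Pt := {c | c ∈ benzel a b ∧ c.2.2 = k ∧ R m c.2.2 c.1 ∧ ¬ R m c.2.1 c.2.2}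

theorem A_tileable (m d a b : ℤ) (hm : 0 ≤ m) (hd : 0 ≤ d)
    (ha : 2 * a = 3 * d ^ 2 + d + 6 * m) (hb : 2 * b = 3 * d ^ 2 - d + 6 * m) (k : ℤ) :
    Tileable (A m a b k) := by
  by_cases hk : m < k
  swap
  · convert Tileable.empty
    ext ⟨x, y, z⟩
    simp only [A, R, Set.mem_ofPred_eq, Set.mem_empty_iff_false, iff_false]
    rintro ⟨-, h1, h2, -⟩
    omega
  -- p = (2b-a)/3
  obtain ⟨p, hp⟩ : ∃ p, 2 * p = 2 * m + (d ^ 2 - d) := by
    have : Even (d ^ 2 - d) := by
      have := Int.even_mul_pred_self d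
      convert this using 1
      ring
    obtain ⟨r, hr⟩ := this
    exact ⟨m + r, by rw [hr]; ring⟩
  have hw0 := tr_nonneg (k - 1 - m)
  have hw1 := tr_le (n := k - 1 - m) (by omega)
  have hw2 := lt_tr (n := k - 1 - m) (by omega)
  obtain ⟨W, hW⟩ : ∃ W, W = tr (k - 1 - m) := ⟨_, rfl⟩
  rw [← hW] at hw0 hw1 hw2
  have hb' : b = 3 * p + d := by linarith
  have ha' : a = 3 * p + 2 * d := by linarith
  have hA : A m a b k = {c : Pt | c ∈ benzel a b ∧ c.2.2 = k ∧ c.1 ≤ k + 1 + W ∧
      c.2.1 ≤ k - 1 - W} := by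
    ext ⟨x, y, z⟩
    simp only [A, Set.mem_ofPred_eq]
    constructor
    · rintro ⟨h1, rfl, h2, h3⟩
      rw [not_R_iff hk] at h3
      exact ⟨h1, rfl, by rw [hW]; exact h2.2, by rw [hW]; exact h3⟩
    · rintro ⟨h1, rfl, h2, h3⟩
      refine ⟨h1, rfl, ⟨hk, by rw [← hW]; exact h2⟩, ?_⟩
      rw [not_R_iff hk, ← hW]
      exact h3
  rw [hA]
  have hp0 : 0 ≤ p := by nlinarith [mul_nonneg hd hd]
  -- case analysis
  rcases le_or_gt k p with hkp | hkp
  · -- full row
    have hWd : W + 2 ≤ d := by
      by_contra hc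
      push Not at hc
      have : d - 1 ≤ W := by omega
      rcases eq_or_lt_of_le hd with h0 | h0
      · subst h0
        nlinarith
      · nlinarith
    convert row_tileable k (2 - 2 * k + W) (k + 1 + W) (by omega) using 1
    ext ⟨x, y, z⟩
    simp only [benzel, Set.mem_ofPred_eq]
    omega
  · rcases le_or_gt k (p + d) with hkq | hkq
    · have hWd : W = d - 1 := by
        have h1 : d ≤ W + 1 := by
          by_contra hc
          push Not at hc
          nlinarith
        have h2 : W < d := by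
          by_contra hc
          push Not at hc
          nlinarith
        omega
      convert row_tileable k (2 - 2 * k + W) (b - 2 * k) (by omega) using 1
      ext ⟨x, y, z⟩
      simp only [benzel, Set.mem_ofPred_eq]
      omega
    · have hWd : d ≤ W := by
        by_contra hc
        push Not at hc
        nlinarith
      have hWr : W ≤ d - 1 + (k - (p + d)) := by
        by_contra hc
        push Not at hc
        obtain ⟨r, hr⟩ : ∃ r, r = k - (p + d) := ⟨_, rfl⟩
        have hr1 : 1 ≤ r := by omega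
        have h3 : d + r ≤ W := by omega
        have h4 : k = p + d + r := by omega
        nlinarith [mul_nonneg hd (by omega : 0 ≤ r), mul_self_nonneg r]
      convert row_tileable k (k - a + 1) (b - 2 * k) (by omega) using 1
      ext ⟨x, y, z⟩
      simp only [benzel, Set.mem_ofPred_eq]
      omega

theorem benzel_tileable (m d a b : ℤ) (hm : 0 ≤ m) (hd : 0 ≤ d)
    (ha : 2 * a = 3 * d ^ 2 + d + 6 * m) (hb : 2 * b = 3 * d ^ 2 - d + 6 * m) :
    Tileable (benzel a b) := by
  classical
  have hA := A_tileable m d a b hm hd ha hb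
  apply Tileable.of_fibers (fun c : Pt =>
    if R m c.2.2 c.1 ∧ ¬ R m c.2.1 c.2.2 then ((0 : ℤ), c.2.2)
    else if R m c.1 c.2.1 ∧ ¬ R m c.2.2 c.1 then ((1 : ℤ), c.1)
    else if R m c.2.1 c.2.2 ∧ ¬ R m c.1 c.2.1 then ((2 : ℤ), c.2.1)
    else ((3 : ℤ), 0))
  rintro ⟨u, l⟩
  by_cases hu0 : u = 0
  · subst hu0
    convert hA l using 1
    ext ⟨x, y, z⟩
    simp only [A, Set.mem_ofPred_eq]
    split_ifs with h1 h2 h3 <;> simp only [Prod.mk.injEq, true_and] <;> tauto
  by_cases hu1 : u = 1
  · subst hu1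
    have := ((hA l).image rot rot_inj rot_tile).image rot rot_inj rot_tile
    convert this using 1
    rw [Set.image_image]
    ext ⟨x, y, z⟩
    simp only [rot, Set.mem_image, Prod.exists, Prod.mk.injEq]
    constructor
    · intro h
      refine ⟨y, z, x, ?_, rfl, rfl, rfl⟩
      simp only [Set.mem_ofPred_eq] at h
      obtain ⟨hB, h⟩ := h
      split_ifs at h with h1 h2 h3
      · simp only [Prod.mk.injEq] at h; omega
      · simp only [Prod.mk.injEq, true_and] at h
        refine ⟨?_, h, h2⟩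
        simp only [benzel, Set.mem_ofPred_eq] at hB ⊢
        omega
      · simp only [Prod.mk.injEq] at h; omega
      · simp only [Prod.mk.injEq] at h; omega
    · rintro ⟨i, j, k, h, rfl, rfl, rfl⟩
      obtain ⟨hB, h1, h2⟩ := h
      simp only at h1 h2
      simp only [Set.mem_ofPred_eq]
      refine ⟨?_, ?_⟩
      · simp only [benzel, Set.mem_ofPred_eq] at hB ⊢
        omega
      · rw [if_neg (by tauto), if_pos h2, h1]
  by_cases hu2 : u = 2
  · subst hu2
    have := (hA l).image rot rot_inj rot_tile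
    convert this using 1
    ext ⟨x, y, z⟩
    simp only [rot, Set.mem_image, Prod.exists, Prod.mk.injEq]
    constructor
    · intro h
      refine ⟨z, x, y, ?_, rfl, rfl, rfl⟩
      simp only [Set.mem_ofPred_eq] at h
      obtain ⟨hB, h⟩ := h
      split_ifs at h with h1 h2 h3
      · simp only [Prod.mk.injEq] at h; omega
      · simp only [Prod.mk.injEq] at h; omega
      · simp only [Prod.mk.injEq, true_and] at h
        refine ⟨?_, h, h3⟩
        simp only [benzel, Set.mem_ofPred_eq] at hB ⊢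
        omega
      · simp only [Prod.mk.injEq] at h; omega
    · rintro ⟨i, j, k, h, rfl, rfl, rfl⟩
      obtain ⟨hB, h1, h2⟩ := h
      simp only at h1 h2
      simp only [Set.mem_ofPred_eq]
      refine ⟨?_, ?_⟩
      · simp only [benzel, Set.mem_ofPred_eq] at hB ⊢
        omega
      · rw [if_neg (by tauto), if_neg (by tauto), if_pos h2, h1]
  by_cases hu3 : u = 3 ∧ l = 0
  · obtain ⟨rfl, rfl⟩ := hu3
    convert core_tileable m using 1
    ext ⟨x, y, z⟩
    simp only [Set.mem_ofPred_eq]
    constructor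
    · rintro ⟨hB, h⟩
      have hs := hB.1
      simp only at hs
      split_ifs at h with h1 h2 h3
      · simp only [Prod.mk.injEq] at h; omega
      · simp only [Prod.mk.injEq] at h; omega
      · simp only [Prod.mk.injEq] at h; omega
      · refine ⟨hs, ?_⟩
        by_contra hc
        by_cases hR : R m z x
        · have a1 : R m y z := by tauto
          have a2 : R m x y := by tauto
          have := hR.1
          have := a1.1
          have := a2.1
          omega
        · have a1 : ¬ R m x y := by tauto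
          have a2 : ¬ R m y z := by tauto
          unfold R at hR a1 a2
          have t1 := tr_nonneg (z - 1 - m)
          have t2 := tr_nonneg (x - 1 - m)
          have t3 := tr_nonneg (y - 1 - m)
          omega
    · rintro ⟨hs, hx, hy, hz⟩
      refine ⟨?_, ?_⟩
      · simp only [benzel, Set.mem_ofPred_eq]
        have h1 : d ≤ d ^ 2 := by nlinarith
        refine ⟨hs, ?_⟩
        constructor
        · constructor <;> nlinarith
        · constructor
          · constructor <;> nlinarith
          · constructor <;> nlinarith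
      · have b1 : ¬ R m z x := fun h => by have := h.1; omega
        have b2 : ¬ R m x y := fun h => by have := h.1; omega
        have b3 : ¬ R m y z := fun h => by have := h.1; omega
        rw [if_neg (by tauto), if_neg (by tauto), if_neg (by tauto)]
  · convert Tileable.empty
    ext ⟨x, y, z⟩
    simp only [Set.mem_ofPred_eq, Set.mem_empty_iff_false, iff_false]
    split_ifs <;> simp only [Prod.mk.injEq] <;> tauto

theorem Tileable.refl' {a b : ℤ} (h : Tileable (benzel a b)) : Tileable (benzel b a) := by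
  rw [benzel_refl]
  exact h.image refl refl_inj refl_tile

/-- The arithmetic of the condition `I(a,b) ≤ 0`. -/
theorem arith {a b : ℤ} (ha : 2 ≤ a) (hab : a ≤ 2 * b) (hb : 2 ≤ b) (hba : b ≤ 2 * a)
    (hI : I a b ≤ 0) : (a + b) % 3 = 0 ∧ 3 * (a - b) ^ 2 ≤ a + b := by
  unfold I at hI
  split_ifs at hI with h0 h1
  · refine ⟨h0, ?_⟩
    have h : (3 * (a : ℚ) ^ 2 - 6 * a * b + 3 * b ^ 2 - a - b) ≤ 0 := by linarith
    have h2 : (3 * a ^ 2 - 6 * a * b + 3 * b ^ 2 - a - b : ℤ) ≤ 0 := by exact_mod_cast h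
    nlinarith
  · exfalso
    have h : (-(a : ℚ) ^ 2 + 4 * a * b - b ^ 2 - a - b + 2) ≤ 0 := by linarith
    have h2 : (-a ^ 2 + 4 * a * b - b ^ 2 - a - b + 2 : ℤ) ≤ 0 := by exact_mod_cast h
    have h3 : 1 ≤ 2 * b - a := by omega
    have h4 : 1 ≤ 2 * a - b := by omega
    nlinarith [mul_nonneg (by linarith : 0 ≤ a) (by linarith : 0 ≤ 2 * b - a - 1),
      mul_nonneg (by linarith : 0 ≤ b) (by linarith : 0 ≤ 2 * a - b - 1)]
  · exfalso
    have h : (3 * (a : ℚ) ^ 2 - 6 * a * b + 3 * b ^ 2 + a + b - 2) ≤ 0 := by linarith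
    have h2 : (3 * a ^ 2 - 6 * a * b + 3 * b ^ 2 + a + b - 2 : ℤ) ≤ 0 := by exact_mod_cast h
    nlinarith [sq_nonneg (a - b)]

theorem tileable_of_le {a b : ℤ} (hle : b ≤ a) (h0 : (a + b) % 3 = 0)
    (h : 3 * (a - b) ^ 2 ≤ a + b) : Tileable (benzel a b) := by
  obtain ⟨s, hs⟩ : ∃ s, a + b = 3 * s := ⟨(a + b) / 3, by omega⟩
  obtain ⟨d, hd⟩ : ∃ d, a - b = d := ⟨_, rfl⟩
  have hd0 : 0 ≤ d := by omega
  have h1 : d ^ 2 ≤ s := by
    rw [hd, hs] at h
    omega
  have he : Even (s - d ^ 2) := by
    have e1 : Even (d ^ 2 - d) := by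
      have := Int.even_mul_pred_self d
      convert this using 1
      ring
    obtain ⟨r, hr⟩ := e1
    have e2 : 3 * s + d = 2 * a := by omega
    refine ⟨(s - d ^ 2) / 2, by omega⟩
  obtain ⟨m, hm⟩ := he
  apply benzel_tileable m d a b (by omega) hd0
  · omega
  · omega

theorem main {a b : ℤ} (ha : 2 ≤ a) (hab : a ≤ 2 * b) (hb : 2 ≤ b) (hba : b ≤ 2 * a)
    (hI : I a b ≤ 0) : ∃ T, IsTiling T (benzel a b) := by
  obtain ⟨h0, h1⟩ := arith ha hab hb hba hI
  rcases le_total b a with h | h
  · exact tileable_of_le h h0 h1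
  · apply Tileable.refl'
    apply tileable_of_le h
    · omega
    · nlinarith

end Pool.Agent.E8helper34.Bz
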